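import Pool.Agent.Work.MP_db9399_sl.Interface

/-!
# OUTP: the outer edges (helper6)

THEOREM OUT for the graph of all edges with an end outside the spots, the edges of `EH`, and pendant
edges at the spot vertices of degree less than `d`.
-/

set_option autoImplicit false

namespace Pool.Agent.Work.MP_db9399_sl_helper6

open Finset Classical
open Pool.Agent.Work.MP_db9399_all (nb)
open Pool.Agent.Work.MP_db9399_dn (IsMat Tot)
open Pool.Agent.Work.MP_db9399_bg (HPre)
open Pool.Agent.Work.MP_db9399_sl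
open Pool.Agent.Work.MP_db9399_ot (OutR Stmt_OUT)
open _root_.MP_db9399_co

universe u

theorem mem_nb {V : Type u} [Fintype V] (G : SimpleGraph V) (v w : V) :
    w ∈ nb G v ↔ G.Adj v w := by
  simp [nb]

/-- the extended vertex set -/
def VP (V : Type u) (d : ℕ) : Type u := V ⊕ V × Fin d

instance (V : Type u) [Fintype V] (d : ℕ) : Fintype (VP V d) :=
  inferInstanceAs (Fintype (V ⊕ V × Fin d))

/-- the inclusion -/
def io (V : Type u) (d : ℕ) : V ↪ VP V d := ⟨Sum.inl, Sum.inl_injective⟩

section defs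
variable {V : Type u}

/-- adjacency of the extended graph -/
def AP (G EH : SimpleGraph V) (d : ℕ) (Ys : Finset (Finset V)) (e : V → ℕ) :
    VP V d → VP V d → Prop
  | Sum.inl v, Sum.inl w => (Gout G Ys).Adj v w ∨ EH.Adj v w
  | Sum.inl v, Sum.inr x => v = x.1 ∧ InS Ys v ∧ (x.2 : ℕ) < e v
  | Sum.inr x, Sum.inl v => v = x.1 ∧ InS Ys v ∧ (x.2 : ℕ) < e v
  | Sum.inr _, Sum.inr _ => False

/-- the extended graph -/
def GP (G EH : SimpleGraph V) (d : ℕ) (Ys : Finset (Finset V)) (e : V → ℕ) :
    SimpleGraph (VP V d) where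
  Adj := AP G EH d Ys e
  symm := ⟨by
    rintro (v | x) (w | y) h
    · rcases h with h | h
      · exact Or.inl h.symm
      · exact Or.inr h.symm
    · exact h
    · exact h
    · exact h⟩
  loopless := ⟨by
    rintro (v | x) h
    · rcases h with h | h
      · exact h.ne rfl
      · exact h.ne rfl
    · exact h⟩

/-- the edges of `EH` in the extended graph -/
def EP (EH : SimpleGraph V) (d : ℕ) : SimpleGraph (VP V d) where
  Adj x y := ∃ v w, x = Sum.inl v ∧ y = Sum.inl w ∧ EH.Adj v w
  symm := ⟨by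
    rintro x y ⟨v, w, h1, h2, h3⟩
    exact ⟨w, v, h2, h1, h3.symm⟩⟩
  loopless := ⟨by
    rintro x ⟨v, w, h1, h2, h3⟩
    rw [h1] at h2
    exact h3.ne (Sum.inl.inj h2)⟩

theorem EP_inl (EH : SimpleGraph V) (d : ℕ) (v w : V) :
    (EP EH d).Adj (Sum.inl v) (Sum.inl w) ↔ EH.Adj v w := by
  constructor
  · rintro ⟨v', w', h1, h2, h3⟩
    rw [Sum.inl.inj h1, Sum.inl.inj h2]
    exact h3
  · intro h
    exact ⟨v, w, rfl, rfl, h⟩

theorem EP_inr (EH : SimpleGraph V) (d : ℕ) (x : VP V d) (y : V × Fin d) :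
    ¬ (EP EH d).Adj x (Sum.inr y) := by
  rintro ⟨v', w', h1, h2, h3⟩
  cases h2

theorem EP_inr' (EH : SimpleGraph V) (d : ℕ) (x : VP V d) (y : V × Fin d) :
    ¬ (EP EH d).Adj (Sum.inr y) x := by
  rintro ⟨v', w', h1, h2, h3⟩
  cases h1

variable [Fintype V]

/-- number of pendants -/
theorem card_pend (d n : ℕ) (h : n ≤ d) :
    (univ.filter (fun i : Fin d => (i : ℕ) < n)).card = n := by
  have h1 : (univ.filter (fun i : Fin d => (i : ℕ) < n)) =
      (univ : Finset (Fin n)).map (Fin.castLEEmb h) := by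
    ext i
    simp only [mem_filter, mem_univ, true_and, mem_map]
    constructor
    · intro hi
      exact ⟨⟨i, hi⟩, by ext; simp⟩
    · rintro ⟨j, hj⟩
      rw [← hj]
      simp
  rw [h1, card_map, card_univ, Fintype.card_fin]

/-- outer neighbours -/
noncomputable def NO (G EH : SimpleGraph V) (Ys : Finset (Finset V)) (v : V) : Finset V :=
  univ.filter (fun w => (Gout G Ys).Adj v w ∨ EH.Adj v w)

theorem nbGP (G EH : SimpleGraph V) (d : ℕ) (Ys : Finset (Finset V)) (e : V → ℕ) (v : V) :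
    nb (GP G EH d Ys e) (Sum.inl v) = (NO G EH Ys v).map (io V d) ∪
      (univ.filter (fun i : Fin d => InS Ys v ∧ (i : ℕ) < e v)).image
        (fun i => (Sum.inr (v, i) : VP V d)) := by
  ext x
  rw [mem_nb, mem_union, mem_map, mem_image]
  rcases x with w | x
  · constructor
    · intro h
      left
      refine ⟨w, ?_, rfl⟩
      rw [NO, mem_filter]
      exact ⟨mem_univ _, h⟩
    · rintro (⟨w', h1, h2⟩ | ⟨i, h1, h2⟩)
      · have h3 : w' = w := Sum.inl.inj h2
        rw [← h3]
        rw [NO, mem_filter] at h1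
        exact h1.2
      · cases h2
  · constructor
    · intro h
      right
      have h' : v = x.1 ∧ InS Ys v ∧ (x.2 : ℕ) < e v := h
      refine ⟨x.2, ?_, ?_⟩
      · rw [mem_filter]
        exact ⟨mem_univ _, h'.2⟩
      · rw [h'.1]
    · rintro (⟨w', h1, h2⟩ | ⟨i, h1, h2⟩)
      · cases h2
      · rw [← h2]
        rw [mem_filter] at h1
        exact ⟨rfl, h1.2⟩

theorem card_nbGP (G EH : SimpleGraph V) (d : ℕ) (Ys : Finset (Finset V)) (e : V → ℕ) (v : V)
    (he : e v ≤ d) :
    (nb (GP G EH d Ys e) (Sum.inl v)).card = (NO G EH Ys v).card + if InS Ys v then e v else 0 := by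
  rw [nbGP, card_union_of_disjoint, card_map, card_image_of_injective]
  · by_cases h : InS Ys v
    · rw [if_pos h]
      have h1 : (univ.filter (fun i : Fin d => InS Ys v ∧ (i : ℕ) < e v)) =
          univ.filter (fun i : Fin d => (i : ℕ) < e v) := by
        ext i; simp [h]
      rw [h1, card_pend d (e v) he]
    · rw [if_neg h]
      have h1 : (univ.filter (fun i : Fin d => InS Ys v ∧ (i : ℕ) < e v)) = ∅ := by
        ext i; simp [h]
      rw [h1, card_empty]
  · intro i j hij
    have := Sum.inr.inj hij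
    exact (Prod.mk.inj this).2
  · rw [disjoint_left]
    intro x hx hx'
    rw [mem_map] at hx
    rw [mem_image] at hx'
    obtain ⟨w, _, hw⟩ := hx
    obtain ⟨i, _, hi⟩ := hx'
    rw [← hw] at hi
    cases hi

theorem nbGP_inr (G EH : SimpleGraph V) (d : ℕ) (Ys : Finset (Finset V)) (e : V → ℕ)
    (x : V × Fin d) : nb (GP G EH d Ys e) (Sum.inr x) ⊆ {io V d x.1} := by
  intro y hy
  rw [mem_nb] at hy
  rcases y with w | y
  · have h' : w = x.1 ∧ InS Ys w ∧ (x.2 : ℕ) < e w := hy
    rw [← h'.1]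
    exact mem_singleton_self _
  · exact False.elim hy

/-- degrees at the spot vertices -/
theorem degs (G EH : SimpleGraph V) (Ys : Finset (Finset V)) (hEG : EH ≤ G) (v : V)
    (hv : InS Ys v) : (NO G EH Ys v).card + (nb (Gin G EH Ys) v).card +
      (nb (Gss G EH Ys) v).card = (nb G v).card := by
  have h1 : nb G v = (NO G EH Ys v ∪ nb (Gin G EH Ys) v) ∪ nb (Gss G EH Ys) v := by
    ext w
    rw [mem_union, mem_union, mem_nb, mem_nb, mem_nb, NO, mem_filter]
    constructor
    · intro h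
      by_cases hE : EH.Adj v w
      · left; left; exact ⟨mem_univ _, Or.inr hE⟩
      by_cases hw : InS Ys w
      · by_cases hs : Same Ys v w
        · left; right; exact ⟨h, hs, hE⟩
        · right; exact ⟨h, hv, hw, hs, hE⟩
      · left; left; exact ⟨mem_univ _, Or.inl ⟨h, fun h' => hw h'.2⟩⟩
    · rintro ((⟨_, h | h⟩ | h) | h)
      · exact h.1
      · exact hEG h
      · exact h.1
      · exact h.1
  rw [h1, card_union_of_disjoint, card_union_of_disjoint]
  · rw [disjoint_left]
    intro w hw hw'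
    rw [NO, mem_filter] at hw
    rw [mem_nb] at hw'
    rcases hw.2 with h | h
    · obtain ⟨Y, hY, h2, h3⟩ := hw'.2.1
      exact h.2 ⟨⟨Y, hY, h2⟩, ⟨Y, hY, h3⟩⟩
    · exact hw'.2.2 h
  · rw [disjoint_left]
    intro w hw hw'
    rw [mem_nb] at hw'
    rw [mem_union] at hw
    rcases hw with hw | hw
    · rw [NO, mem_filter] at hw
      rcases hw.2 with h | h
      · exact h.2 ⟨hw'.2.1, hw'.2.2.1⟩
      · exact hw'.2.2.2.2 h
    · rw [mem_nb] at hw
      exact hw'.2.2.2.1 hw.2.1

/-- the inner degree without the edge of `EH` -/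
theorem deg_in (G EH : SimpleGraph V) (Ys : Finset (Finset V)) (hm : IsMat EH) (Y : Finset V)
    (hY : Y ∈ Ys) (v : V) (hv : v ∈ Y) : (nb G v ∩ Y).card ≤ (nb (Gin G EH Ys) v).card + 1 := by
  have h1 : nb G v ∩ Y ⊆ nb (Gin G EH Ys) v ∪ nb EH v := by
    intro w hw
    rw [mem_inter, mem_nb] at hw
    rw [mem_union, mem_nb, mem_nb]
    by_cases hE : EH.Adj v w
    · exact Or.inr hE
    · exact Or.inl ⟨hw.1, ⟨Y, hY, hv, hw.2⟩, hE⟩
  calc (nb G v ∩ Y).card ≤ (nb (Gin G EH Ys) v ∪ nb EH v).card := card_le_card h1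
    _ ≤ (nb (Gin G EH Ys) v).card + (nb EH v).card := card_union_le _ _
    _ ≤ (nb (Gin G EH Ys) v).card + 1 := by
        have := hm v
        omega

/-- outside the spots nothing changes -/
theorem NO_out (G EH : SimpleGraph V) (Ys : Finset (Finset V)) (hEG : EH ≤ G) (v : V)
    (hv : ¬ InS Ys v) : NO G EH Ys v = nb (Gout G Ys) v := by
  ext w
  rw [NO, mem_filter, mem_nb]
  constructor
  · rintro ⟨_, h | h⟩
    · exact h
    · exact ⟨hEG h, fun h' => hv h'.1⟩
  · intro h
    exact ⟨mem_univ _, Or.inl h⟩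

theorem nbGP_out (G EH : SimpleGraph V) (d : ℕ) (Ys : Finset (Finset V)) (e : V → ℕ)
    (hEG : EH ≤ G) (v : V) (hv : ¬ InS Ys v) :
    nb (GP G EH d Ys e) (Sum.inl v) = (nb (Gout G Ys) v).map (io V d) := by
  rw [nbGP, NO_out G EH Ys hEG v hv]
  have h1 : (univ.filter (fun i : Fin d => InS Ys v ∧ (i : ℕ) < e v)) = ∅ := by
    ext i; simp [hv]
  rw [h1, image_empty, union_empty]

/-- the part of a set in `V` -/
noncomputable def pre {d : ℕ} (S : Finset (VP V d)) : Finset V :=
  univ.filter (fun v => Sum.inl v ∈ S)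

theorem mem_pre {d : ℕ} (S : Finset (VP V d)) (v : V) : v ∈ pre S ↔ Sum.inl v ∈ S := by
  simp [pre]

theorem card_pre_le {d : ℕ} (S : Finset (VP V d)) : (pre S).card ≤ S.card := by
  have h1 : (pre S).map (io V d) ⊆ S := by
    intro x hx
    rw [mem_map] at hx
    obtain ⟨v, hv, rfl⟩ := hx
    exact (mem_pre S v).mp hv
  have h2 := card_le_card h1
  rw [card_map] at h2
  exact h2

theorem eq_map_pre {d : ℕ} (T : Finset (VP V d)) (h : ∀ x ∈ T, ∃ v, x = Sum.inl v) :
    T = (pre T).map (io V d) := by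
  ext x
  rw [mem_map]
  constructor
  · intro hx
    obtain ⟨v, rfl⟩ := h x hx
    exact ⟨v, (mem_pre T v).mpr hx, rfl⟩
  · rintro ⟨v, hv, rfl⟩
    exact (mem_pre T v).mp hv

theorem sdiff_pre {d : ℕ} (X : Finset V) (S : Finset (VP V d)) :
    (X.map (io V d) \ S).card = (X \ pre S).card := by
  have h1 : X.map (io V d) \ S =
      (X \ pre S).map (io V d) := by
    ext x
    rw [mem_sdiff, mem_map, mem_map]
    constructor
    · rintro ⟨⟨v, hv, rfl⟩, h2⟩
      refine ⟨v, ?_, rfl⟩
      rw [mem_sdiff, mem_pre]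
      exact ⟨hv, h2⟩
    · rintro ⟨v, hv, rfl⟩
      rw [mem_sdiff, mem_pre] at hv
      exact ⟨⟨v, hv.1, rfl⟩, hv.2⟩
  rw [h1, card_map]

end defs

theorem OUTP_of (hOUT : Stmt_OUT.{u}) : Stmt_OUTP.{u} := by
  intro δ π hδ hπ hπ3
  obtain ⟨θO, hθO, hθO1, hO⟩ := hOUT (δ / 2) π (by positivity) hπ hπ3
  refine ⟨θO / 4, by positivity, by linarith, ?_⟩
  intro g hg hg1
  obtain ⟨d0, hd0⟩ := hO g hg hg1
  obtain ⟨n1, hn1⟩ := exists_nat_gt (4 / θO)
  obtain ⟨n2, hn2⟩ := exists_nat_gt (8 / δ)
  refine ⟨max d0 (max 10 (max n1 n2)), ?_⟩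
  intro V _ G d k Ys UH c0 EH tu hd hdV hdk hdeg hY2 hdis hin hBip hNsc hH hUY
  have hdd0 : d0 ≤ d := le_trans (le_max_left _ _) hd
  have hd10 : 10 ≤ d := le_trans (le_trans (le_max_left _ _) (le_max_right _ _)) hd
  have hdn1 : n1 ≤ d := le_trans (le_trans (le_trans (le_max_left _ _) (le_max_right _ _))
    (le_max_right _ _)) hd
  have hdn2 : n2 ≤ d := le_trans (le_trans (le_trans (le_max_right _ _) (le_max_right _ _))
    (le_max_right _ _)) hd
  have hdR : (10 : ℝ) ≤ d := by exact_mod_cast hd10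
  have hθd : 4 ≤ θO * d := by
    have h1 : (4 : ℝ) / θO < d := lt_of_lt_of_le hn1 (by exact_mod_cast hdn1)
    rw [div_lt_iff₀ hθO] at h1
    linarith
  have hδd : 8 ≤ δ * d := by
    have h1 : (8 : ℝ) / δ < d := lt_of_lt_of_le hn2 (by exact_mod_cast hdn2)
    rw [div_lt_iff₀ hδ] at h1
    linarith
  have hEG : EH ≤ G := hH.EG
  set e : V → ℕ := fun v => d - (nb G v).card with he
  have hed : ∀ v, e v ≤ d := fun v => Nat.sub_le _ _
  set G' := GP G EH d Ys e with hG'
  set E' := EP EH d with hE'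
  -- small degrees at the spot vertices
  have hsm : ∀ v, InS Ys v → ((NO G EH Ys v).card : ℝ) ≤ θO / 4 * d + 1 ∧
      ((e v : ℕ) : ℝ) ≤ θO / 4 * d := by
    rintro v ⟨Y, hY, hvY⟩
    have h1 := degs G EH Ys hEG v ⟨Y, hY, hvY⟩
    have h2 := deg_in G EH Ys hH.mat Y hY v hvY
    have h3 := hin Y hY v hvY
    have h4 := hdeg v
    have h5 : (nb G v ∩ Y).card ≤ (nb G v).card := card_le_card inter_subset_left
    have h6 : ((NO G EH Ys v).card : ℝ) + (nb (Gin G EH Ys) v).card +
      (nb (Gss G EH Ys) v).card = (nb G v).card := by exact_mod_cast h1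
    have h7 : ((nb G v ∩ Y).card : ℝ) ≤ (nb (Gin G EH Ys) v).card + 1 := by exact_mod_cast h2
    have h8 : ((nb G v).card : ℝ) ≤ d := by exact_mod_cast h4
    have h9 : (0 : ℝ) ≤ (nb (Gss G EH Ys) v).card := by positivity
    have h10 : ((nb G v ∩ Y).card : ℝ) ≤ (nb G v).card := by exact_mod_cast h5
    constructor
    · linarith
    · rw [he]
      simp only
      rw [Nat.cast_sub h4]
      linarith
  have hdegs : ∀ v, InS Ys v → ((nb G' (Sum.inl v)).card : ℝ) ≤ θO * d := by
    intro v hv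
    obtain ⟨h1, h2⟩ := hsm v hv
    rw [hG', card_nbGP G EH d Ys e v (hed v), if_pos hv]
    push_cast
    linarith
  have hdego : ∀ v, ¬ InS Ys v → (nb G' (Sum.inl v)).card ≤ d := by
    intro v hv
    rw [hG', nbGP_out G EH d Ys e hEG v hv, card_map]
    refine le_trans (card_le_card ?_) (hdeg v)
    intro w hw
    rw [mem_nb] at hw ⊢
    exact hw.1
  have hdegr : ∀ x : V × Fin d, (nb G' (Sum.inr x)).card ≤ 1 := by
    intro x
    have h1 := card_le_card (nbGP_inr G EH d Ys e x)
    rw [card_singleton] at h1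
    exact h1
  have hθ1 : θO * d ≤ (1 / 100) * d := by
    apply mul_le_mul_of_nonneg_right hθO1
    positivity
  -- heavy vertices
  have hheavy : ∀ x, (1 - g) * d ≤ ((nb G' x).card : ℝ) → ∃ v, x = Sum.inl v ∧ ¬ InS Ys v := by
    intro x hx
    have h0 : (9 / 10 : ℝ) * d ≤ (1 - g) * d := by
      apply mul_le_mul_of_nonneg_right (by linarith)
      positivity
    rcases x with v | x
    · refine ⟨v, rfl, ?_⟩
      intro hv
      have h1 := hdegs v hv
      linarith
    · exfalso
      have h1 : ((nb G' (Sum.inr x)).card : ℝ) ≤ 1 := by exact_mod_cast hdegr x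
      linarith
  have hnbo : ∀ v, ¬ InS Ys v → nb G' (Sum.inl v) =
      (nb (Gout G Ys) v).map (io V d) := fun v hv => nbGP_out G EH d Ys e hEG v hv
  set UH' : Finset (VP V d) := UH.map (io V d) with hUH'
  have hmU : ∀ v, io V d v ∈ UH' ↔ v ∈ UH := by
    intro v
    rw [hUH', mem_map]
    constructor
    · rintro ⟨w, hw, h⟩
      rw [← Sum.inl.inj h]
      exact hw
    · intro h
      exact ⟨v, h, rfl⟩
  have hmUr : ∀ x : V × Fin d, (show VP V d from Sum.inr x) ∉ UH' := by
    intro x hx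
    rw [hUH'] at hx
    obtain ⟨w, hw, h⟩ := mem_map.mp hx
    cases h
  set c0' : VP V d → Fin k := Sum.elim c0 (fun x => c0 x.1) with hc0'
  set tu' : VP V d → Fin k := Sum.elim tu (fun x => tu x.1) with htu'
  have hGadj : ∀ v w, G'.Adj (Sum.inl v) (Sum.inl w) ↔ (Gout G Ys).Adj v w ∨ EH.Adj v w :=
    fun v w => Iff.rfl
  have hGG : ∀ v w, G'.Adj (Sum.inl v) (Sum.inl w) → G.Adj v w := by
    intro v w h
    rcases (hGadj v w).mp h with h | h
    · exact h.1
    · exact hEG h
  have hH' : HPre G' UH' c0' E' tu' := by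
    refine ⟨?_, ?_, ?_, ?_, ?_, ?_, ?_, ?_, ?_⟩
    · rintro x y ⟨v, w, rfl, rfl, h⟩
      exact Or.inr h
    · intro x
      rcases x with v | x
      · have h1 : nb E' (Sum.inl v) ⊆ (nb EH v).map (io V d) := by
          intro y hy
          rw [mem_nb] at hy
          obtain ⟨v', w', h1, h2, h3⟩ := hy
          rw [mem_map]
          refine ⟨w', ?_, h2.symm⟩
          rw [mem_nb, Sum.inl.inj h1]
          exact h3
        have h2 := card_le_card h1
        rw [card_map] at h2
        exact le_trans h2 (hH.mat v)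
      · have h1 : nb E' (Sum.inr x) = ∅ := by
          ext y
          rw [mem_nb]
          constructor
          · intro h
            exact absurd h (EP_inr' EH d y x)
          · intro h
            exact absurd h (notMem_empty _)
        rw [h1, card_empty]
        omega
    · rintro x y ⟨v, w, rfl, rfl, h⟩
      exact (hmU v).mpr (hH.EU v w h)
    · intro x hx
      rcases x with v | x
      · obtain ⟨w, hw⟩ := hH.cov v ((hmU v).mp hx)
        exact ⟨Sum.inl w, v, w, rfl, rfl, hw⟩
      · exact absurd hx (hmUr x)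
    · intro x hx y hy hxy
      rcases x with v | x
      · rcases y with w | y
        · exact ⟨v, w, rfl, rfl, hH.ind v ((hmU v).mp hx) w ((hmU w).mp hy) (hGG v w hxy)⟩
        · exact absurd hy (hmUr y)
      · exact absurd hx (hmUr x)
    · intro z x hx y hy hzx hzy
      rcases x with v | x
      · rcases y with w | y
        · rcases z with z | z
          · rcases hH.far z v ((hmU v).mp hx) w ((hmU w).mp hy) (hGG z v hzx) (hGG z w hzy)
              with h | h
            · left; rw [h]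
            · right; exact ⟨v, w, rfl, rfl, h⟩
          · left
            have h1 := mem_singleton.mp (nbGP_inr G EH d Ys e z ((mem_nb _ _ _).mpr hzx))
            have h2 := mem_singleton.mp (nbGP_inr G EH d Ys e z ((mem_nb _ _ _).mpr hzy))
            exact h1.trans h2.symm
        · exact absurd hy (hmUr y)
      · exact absurd hx (hmUr x)
    · rintro x y ⟨v, w, rfl, rfl, h⟩
      exact hH.cc v w h
    · intro x hx
      rcases x with v | x
      · exact hH.ct v ((hmU v).mp hx)
      · exact absurd hx (hmUr x)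
    · rintro x y ⟨v, w, rfl, rfl, h⟩
      exact hH.tt v w h
  -- the spots
  set Sp : Finset (VP V d) :=
    (univ.filter (fun v => InS Ys v ∧ v ∉ UH)).map (io V d) with hSp
  have hmSp : ∀ v, io V d v ∈ Sp ↔ InS Ys v ∧ v ∉ UH := by
    intro v
    rw [hSp, mem_map]
    constructor
    · rintro ⟨w, hw, h⟩
      rw [mem_filter] at hw
      rw [← Sum.inl.inj h]
      exact hw.2
    · intro h
      exact ⟨v, by rw [mem_filter]; exact ⟨mem_univ _, h⟩, rfl⟩
  have hSpe : ∀ x ∈ Sp, ∃ v, x = Sum.inl v ∧ InS Ys v ∧ v ∉ UH := by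
    intro x hx
    rw [hSp, mem_map] at hx
    obtain ⟨w, hw, rfl⟩ := hx
    rw [mem_filter] at hw
    exact ⟨w, rfl, hw.2⟩
  set Ys' : Finset (Finset (VP V d)) :=
    Ys.image (fun Y => (Y \ UH).map (io V d)) with hYs'
  obtain ⟨c, t, K0, C, p, a, Z, hTot, hcU, htE, hR⟩ := hd0 G' d k Sp Ys' UH' c0' E' tu' hdd0
    (le_trans hdV (Fintype.card_le_of_embedding (io V d)))
    hdk
    (by
      rintro (v | x)
      · by_cases hv : InS Ys v
        · have h1 := hdegs v hv
          have h2 : ((nb G' (Sum.inl v)).card : ℝ) ≤ d := by linarith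
          exact_mod_cast h2
        · exact hdego v hv
      · have := hdegr x
        omega)
    (by
      intro x hx
      obtain ⟨v, rfl, hv, _⟩ := hSpe x hx
      exact hdegs v hv)
    (by
      intro x hx y hy hxy
      obtain ⟨v, rfl, hv, hvU⟩ := hSpe x hx
      obtain ⟨w, rfl, hw, hwU⟩ := hSpe y hy
      rcases (hGadj v w).mp hxy with h | h
      · exact h.2 ⟨hv, hw⟩
      · exact hvU (hH.EU v w h))
    (by
      intro S T hST hT hcard
      have hTe : ∀ x ∈ T, ∃ v, x = Sum.inl v := by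
        intro x hx
        obtain ⟨v, h1, _⟩ := hheavy x (hT x hx)
        exact ⟨v, h1⟩
      have hTn : ∀ v ∈ pre T, ¬ InS Ys v := by
        intro v hv
        rw [mem_pre] at hv
        obtain ⟨w, h1, h2⟩ := hheavy _ (hT _ hv)
        rw [Sum.inl.inj h1]
        exact h2
      have hTm := eq_map_pre T hTe
      have hTc : T.card = (pre T).card := by
        conv_lhs => rw [hTm]
        rw [card_map]
      have h1 := hBip (pre S) (pre T) (by
          rw [disjoint_left]
          intro v hv hv'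
          rw [mem_pre] at hv hv'
          exact (disjoint_left.mp hST) hv hv')
        (by
          intro v hv
          have h2 := hT _ ((mem_pre T v).mp hv)
          rw [hnbo v (hTn v hv), card_map] at h2
          exact h2)
        (by
          rw [hTc] at hcard
          have h3 : ((pre S).card : ℝ) ≤ S.card := by exact_mod_cast card_pre_le S
          linarith)
      rw [hTc]
      have h4 : ∑ x ∈ T, ((nb G' x \ S).card : ℝ) =
          ∑ v ∈ pre T, ((nb (Gout G Ys) v \ pre S).card : ℝ) := by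
        conv_lhs => rw [hTm]
        rw [sum_map]
        refine sum_congr rfl fun v hv => ?_
        have h5 := sdiff_pre (nb (Gout G Ys) v) S
        rw [← hnbo v (hTn v hv)] at h5
        exact_mod_cast h5
      rw [h4]
      exact h1)
    (by
      intro T hT hcard
      have hTe : ∀ x ∈ T, ∃ v, x = Sum.inl v := by
        intro x hx
        obtain ⟨v, h1, _⟩ := hheavy x (hT x hx)
        exact ⟨v, h1⟩
      have hTn : ∀ v ∈ pre T, ¬ InS Ys v := by
        intro v hv
        rw [mem_pre] at hv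
        obtain ⟨w, h1, h2⟩ := hheavy _ (hT _ hv)
        rw [Sum.inl.inj h1]
        exact h2
      have hTm := eq_map_pre T hTe
      have hTc : T.card = (pre T).card := by
        conv_lhs => rw [hTm]
        rw [card_map]
      have h1 := hNsc (pre T)
        (by
          intro v hv
          have h2 := hT _ ((mem_pre T v).mp hv)
          rw [hnbo v (hTn v hv), card_map] at h2
          exact h2)
        (by
          rw [hTc] at hcard
          exact hcard)
      rw [hTc]
      have h4 : ∑ x ∈ T, ((nb G' x \ T).card : ℝ) =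
          ∑ v ∈ pre T, ((nb (Gout G Ys) v \ pre T).card : ℝ) := by
        conv_lhs => rw [hTm]
        rw [sum_map]
        refine sum_congr rfl fun v hv => ?_
        have h5 := sdiff_pre (nb (Gout G Ys) v) T
        rw [← hnbo v (hTn v hv)] at h5
        rw [← hTm]
        exact_mod_cast h5
      rw [h4]
      exact h1)
    (by
      intro Y' hY'
      rw [hYs', mem_image] at hY'
      obtain ⟨Y, hY, rfl⟩ := hY'
      constructor
      · intro x hx
        rw [mem_map] at hx
        obtain ⟨v, hv, rfl⟩ := hx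
        rw [mem_sdiff] at hv
        exact (hmSp v).mpr ⟨⟨Y, hY, hv.1⟩, hv.2⟩
      · rw [card_map]
        exact le_trans (card_le_card sdiff_subset) (hY2 Y hY))
    (by
      intro Y1 hY1 Y2 hY2' hne
      rw [hYs', mem_image] at hY1 hY2'
      obtain ⟨A, hA, rfl⟩ := hY1
      obtain ⟨B, hB, rfl⟩ := hY2'
      have hAB : A ≠ B := by
        intro h
        exact hne (by rw [h])
      have h1 := hdis A hA B hB hAB
      rw [disjoint_map]
      exact disjoint_of_subset_left sdiff_subset (disjoint_of_subset_right sdiff_subset h1))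
    hH'
  -- the result
  have hYm : ∀ Y ∈ Ys, (Y \ UH).map (io V d) ∈ Ys' := by
    intro Y hY
    rw [hYs', mem_image]
    exact ⟨Y, hY, rfl⟩
  have hcard2 : ∀ Y ∈ Ys, ∀ (P : V → Prop) [DecidablePred P], (Y.filter P).card ≤ ((Y \ UH).filter P).card + 2 := by
    intro Y hY P _
    have h1 : Y.filter P ⊆ (Y \ UH).filter P ∪ (Y ∩ UH) := by
      intro v hv
      rw [mem_filter] at hv
      rw [mem_union, mem_filter, mem_sdiff, mem_inter]
      by_cases hu : v ∈ UH
      · exact Or.inr ⟨hv.1, hu⟩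
      · exact Or.inl ⟨⟨hv.1, hu⟩, hv.2⟩
    have h2 := card_le_card h1
    have h3 := card_union_le ((Y \ UH).filter P) (Y ∩ UH)
    have h4 := hUY Y hY
    omega
  have hmapf : ∀ (X : Finset V) (P : VP V d → Prop) [DecidablePred P],
      ((X.map (io V d)).filter P).card =
        (X.filter (fun v => P (Sum.inl v))).card := by
    intro X P _
    rw [filter_map, card_map]
    rfl
  refine ⟨fun v => c (Sum.inl v), fun v w => t (Sum.inl v) (Sum.inl w),
    fun v => (nb G' (Sum.inl v)).image (t (Sum.inl v)), K0, C, fun v => p (Sum.inl v),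
    fun v => a (Sum.inl v), univ.filter (fun v => Sum.inl v ∈ Z ∨ v ∈ UH), ?_⟩
  obtain ⟨hT1, hT2, hT3, hT4⟩ := hTot
  have hnotE : ∀ v, v ∉ UH → ∀ x, ¬ E'.Adj (Sum.inl v) x := by
    rintro v hv x ⟨v', w', h1, h2, h3⟩
    rw [Sum.inl.inj h1] at hv
    exact hv (hH.EU v' w' h3)
  refine
    { K0c := hR.K0c
      cU := ?_
      cK := ?_
      cc := ?_
      ts := ?_
      te := ?_
      tK := ?_
      tc := ?_
      ti := ?_
      Et := ?_
      EK := ?_
      EU := ?_
      Ed := ?_
      CK := hR.CK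
      Cc := hR.Cc
      Cd := hR.Cd
      UZ := ?_
      ZY := ?_
      av := ?_
      cell := ?_
      ld := ?_ }
  · intro v hv
    exact hcU (Sum.inl v) ((hmU v).mpr hv)
  · intro v hv
    exact hR.vK (Sum.inl v) (fun h => hv ((hmU v).mp h))
  · intro v w hvw hv hw
    apply hT1
    by_cases h : InS Ys v ∧ InS Ys w
    · exact Or.inr (hH.ind v (hv h.1) w (hw h.2) hvw)
    · exact Or.inl ⟨hvw, h⟩
  · intro v w
    exact hT2 _ _
  · intro v w hvw
    exact htE (Sum.inl v) (Sum.inl w) ((EP_inl EH d v w).mpr hvw)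
  · intro v w hvw hE
    exact hR.tK (Sum.inl v) (Sum.inl w) (Or.inl hvw) (fun h => hE ((EP_inl EH d v w).mp h))
  · intro v w hvw _
    exact hT4 (Sum.inl v) (Sum.inl w) (Or.inl hvw)
  · intro v w hw w' hw' h
    have h1 : Sum.inl w = (Sum.inl w' : VP V d) := by
      apply hT3 (Sum.inl v)
      · exact mem_coe.mpr ((mem_nb _ _ _).mpr hw)
      · exact mem_coe.mpr ((mem_nb _ _ _).mpr hw')
      · exact h
    exact Sum.inl.inj h1
  · intro v w _ hvw
    rw [mem_image]
    exact ⟨Sum.inl w, (mem_nb _ _ _).mpr hvw, rfl⟩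
  · intro v _ hvU b hb
    rw [mem_image] at hb
    obtain ⟨x, hx, rfl⟩ := hb
    exact hR.tK (Sum.inl v) x ((mem_nb _ _ _).mp hx) (hnotE v hvU x)
  · intro v hvU _
    constructor
    · intro b hb
      rw [mem_image] at hb
      obtain ⟨x, hx, rfl⟩ := hb
      rw [mem_insert]
      by_cases hE : E'.Adj (Sum.inl v) x
      · left
        exact htE (Sum.inl v) x hE
      · right
        exact hR.tK (Sum.inl v) x ((mem_nb _ _ _).mp hx) hE
    · intro hb
      rw [mem_image] at hb
      obtain ⟨x, hx, hxx⟩ := hb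
      have h1 := hT4 (Sum.inl v) x ((mem_nb _ _ _).mp hx)
      have h2 : c (Sum.inl v) = c0 v := hcU (Sum.inl v) ((hmU v).mpr hvU)
      rw [h2] at h1
      exact h1 hxx
  · intro v hv
    have h1 := degs G EH Ys hEG v hv
    have h2 := hdeg v
    rw [card_image_of_injOn (hT3 (Sum.inl v)), hG', card_nbGP G EH d Ys e v (hed v), if_pos hv, he]
    simp only
    omega
  · intro v hvU _
    rw [mem_filter]
    exact ⟨mem_univ _, Or.inr hvU⟩
  · intro Y hY
    have h1 := hR.ZY _ (hYm Y hY)
    have h2 : (Y ∩ univ.filter (fun v => Sum.inl v ∈ Z ∨ v ∈ UH)).card ≤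
        ((Y \ UH).map (io V d) ∩ Z).card + 2 := by
      have h3 : Y ∩ univ.filter (fun v => Sum.inl v ∈ Z ∨ v ∈ UH) =
          Y.filter (fun v => Sum.inl v ∈ Z ∨ v ∈ UH) := by
        ext v; simp
      rw [h3]
      refine le_trans (hcard2 Y hY _) ?_
      have h4 : ((Y \ UH).filter (fun v => Sum.inl v ∈ Z ∨ v ∈ UH)).card ≤
          (((Y \ UH).map (io V d)) ∩ Z).card := by
        rw [← filter_mem_eq_inter, hmapf]
        apply card_le_card
        intro v hv
        rw [mem_filter, mem_sdiff] at hv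
        rw [mem_filter, mem_sdiff]
        refine ⟨hv.1, ?_⟩
        rcases hv.2 with h | h
        · exact h
        · exact absurd h hv.1.2
      omega
    have h5 : ((Y ∩ univ.filter (fun v => Sum.inl v ∈ Z ∨ v ∈ UH)).card : ℝ) ≤
        (((Y \ UH).map (io V d) ∩ Z).card : ℝ) + 2 := by exact_mod_cast h2
    linarith
  · intro v hv hvZ
    rw [mem_filter] at hvZ
    have hvZ1 : Sum.inl v ∉ Z := fun h => hvZ ⟨mem_univ _, Or.inl h⟩
    have hvU : v ∉ UH := fun h => hvZ ⟨mem_univ _, Or.inr h⟩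
    rw [disjoint_left]
    intro b hb hb'
    rw [mem_image] at hb
    obtain ⟨x, hx, rfl⟩ := hb
    exact hR.av (Sum.inl v) ((hmSp v).mpr ⟨hv, hvU⟩) hvZ1 x ((mem_nb _ _ _).mp hx)
      (hnotE v hvU x) hb'
  · intro Y hY i l
    have h1 := hR.cell _ (hYm Y hY) i l
    rw [hmapf, card_map] at h1
    have h2 := hcard2 Y hY (fun v => p (Sum.inl v) = i ∧ a (Sum.inl v) = l)
    have h3 : ((Y \ UH).filter (fun v => p (Sum.inl v) = i ∧ a (Sum.inl v) = l)).card ≤
        (Y.filter (fun v => p (Sum.inl v) = i ∧ a (Sum.inl v) = l)).card :=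
      card_le_card (filter_subset_filter _ sdiff_subset)
    have h4 : Y.card = (Y \ UH).card + (Y ∩ UH).card := by
      have := card_sdiff_add_card_inter Y UH
      omega
    have h5 := hUY Y hY
    have h2' : ((Y.filter (fun v => p (Sum.inl v) = i ∧ a (Sum.inl v) = l)).card : ℝ) ≤
      (((Y \ UH).filter (fun v => p (Sum.inl v) = i ∧ a (Sum.inl v) = l)).card : ℝ) + 2 := by
      exact_mod_cast h2
    have h3' : (((Y \ UH).filter (fun v => p (Sum.inl v) = i ∧ a (Sum.inl v) = l)).card : ℝ) ≤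
      ((Y.filter (fun v => p (Sum.inl v) = i ∧ a (Sum.inl v) = l)).card : ℝ) := by
      exact_mod_cast h3
    have h4' : (Y.card : ℝ) = ((Y \ UH).card : ℝ) + ((Y ∩ UH).card : ℝ) := by exact_mod_cast h4
    have h5' : ((Y ∩ UH).card : ℝ) ≤ 2 := by exact_mod_cast h5
    have h6' : (0 : ℝ) ≤ ((Y ∩ UH).card : ℝ) := by positivity
    rw [abs_le] at h1 ⊢
    constructor
    · linarith [h1.1]
    · linarith [h1.2]
  · intro Y hY b
    have h1 := hR.ld _ (hYm Y hY) b
    rw [hmapf] at h1
    refine le_trans ?_ (le_trans h1 (by linarith))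
    have h2 : (Y.filter (fun v => v ∉ univ.filter (fun v => Sum.inl v ∈ Z ∨ v ∈ UH) ∧
        b ∈ (nb G' (Sum.inl v)).image (t (Sum.inl v)))).card ≤
        ((Y \ UH).filter (fun v => Sum.inl v ∉ Z ∧ ∃ x, G'.Adj (Sum.inl v) x ∧
          ¬ E'.Adj (Sum.inl v) x ∧ t (Sum.inl v) x = b)).card := by
      apply card_le_card
      intro v hv
      rw [mem_filter, mem_filter] at hv
      obtain ⟨hvY, hvZ, hvb⟩ := hv
      have hvZ1 : Sum.inl v ∉ Z := fun h => hvZ ⟨mem_univ _, Or.inl h⟩
      have hvU : v ∉ UH := fun h => hvZ ⟨mem_univ _, Or.inr h⟩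
      rw [mem_image] at hvb
      obtain ⟨x, hx, hxb⟩ := hvb
      rw [mem_filter, mem_sdiff]
      exact ⟨⟨hvY, hvU⟩, hvZ1, x, (mem_nb _ _ _).mp hx, hnotE v hvU x, hxb⟩
    exact_mod_cast h2

end Pool.Agent.Work.MP_db9399_sl_helper6
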