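import Pool.Agent.Work.MP_db9399_sl_helper6.OUTP
import Pool.Agent.Work.MP_db9399_ot_helper1.Final

/-!
# OUTP, unconditional (helper6)
-/

set_option autoImplicit false

namespace Pool.Agent.Work.MP_db9399_sl_helper6

universe u

theorem OUTP : Pool.Agent.Work.MP_db9399_sl.Stmt_OUTP.{u} :=
  OUTP_of Pool.Agent.Work.MP_db9399_ot.helper1.out_holds

end Pool.Agent.Work.MP_db9399_sl_helper6
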